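import Pool.Agent.Run7.h10.BM.AI

/-!
Grothendieck's period conjecture in bounded degree and height for almost all fibres of all families with big connected
monodromy: any number of parameters, any connected algebraic group, pure or mixed motives. Outside few hypersurfaces of
the base, of small degree, the relations over number fields between the periods and `2 π i` of the fibre hold on its
torsor.
-/

namespace Pool.Agent.Results.MP_f11a48_ag.BigMonodromy

open Filter Pool.Agent Pool.Agent.Y890.MV Pool.Agent.Run7.h10.BM

/-- (1) Let `F` be a family over an open subset `U` of `ℂ ^ X` with big connected monodromy (`BigFam`): a matrix `P x` of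
analytic functions (periods; rows: Betti, columns: de Rham), a set `E` of polynomials over `ℚ̄` (the relations given by
algebraic cycles) which vanish at `(x, 2 π i, P x)` and define varieties `torsor E x` of pairs `(Y, μ)`, `det Y ≠ 0`,
`μ ≠ 0`, stable under the Tate twist `(z ^ w Y, z ^ 2 μ)`, and a set `Γ` of invertible matrices (the monodromy) which
preserve the relations over `ℂ[x]` of `P`, with irreducible Zariski closure which contains `Y * (P x)⁻¹` for all
`(Y, 2 π i)` in `torsor E x`. There is `ω → ∞` such that for all large `T`, all number fields `K` of degree at most `ω T`,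
embedded in `ℂ`, and all complex numbers `ξ a`, `a < ω T`: the points of `U` with coordinates in `K` of height at most `T`,
of norm at most `ω T` and at distance at least `1 / ω T` from the complement of `U`, at which some relation of degree at
most `ω T` (in each entry), with coefficients in the integers of `K` of size at most `T ^ ω T`, between the periods and the
powers of `2 π i` (`a`-th power, `a < ω T`) does not hold on the torsor, or between the periods and the `ξ a` does not hold
at the `(Y, 2 π i)` in the torsor (`Exceptional`), lie on at most `T ^ (1 / ω T)` hypersurfaces of degree at most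
`T ^ (1 / ω T)`; and there are at most `T ^ (1 / ω T) * N ^ (|X| - 1)` of them, `N` being the number of elements of `K` of
height at most `T`.
(2) The period matrices of the hyperelliptic curves `y² = ∏ (x - e r)`, `r ≤ n`, `n` even, with branch points `e r` of
increasing real parts, are such a family. -/
theorem result :
    (∀ (X : Type) [Fintype X] [DecidableEq X] [Nonempty X] (m : ℕ) (F : BigFam X m),
      (∀ x ∈ F.U, (F.P x, tpi) ∈ torsor F.E x) ∧
      ∃ (ω : ℝ → ℕ) (T₀ : ℝ), Tendsto ω atTop atTop ∧ Monotone ω ∧ ∀ T, T₀ ≤ T → 0 < ω T ∧
        ∀ (K : Type) [Field K] [NumberField K], Module.finrank ℚ K ≤ ω T → ∀ (io : K →+* ℂ) (ξ : Fin (ω T) → ℂ),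
          Y124.Cov ⌊T ^ ((ω T : ℝ)⁻¹)⌋₊ ⌊T ^ ((ω T : ℝ)⁻¹)⌋₊
            ((fun (e : X → K) j => io (e j)) '' F.Exceptional (ω T) K io ξ T) ∧
          (F.Exceptional (ω T) K io ξ T).Finite ∧
          ((F.Exceptional (ω T) K io ξ T).ncard : ℝ) ≤
            T ^ ((ω T : ℝ)⁻¹) * ({x : K | Y120.HtLe K T x}.ncard : ℝ) ^ (Fintype.card X - 1)) ∧
    ∀ n : ℕ, Even n → ∃ F : BigFam (Σ _ : Unit, Fin (n + 1)) n,
      F.U = Y890.HE.Conf (fun _ : Unit => n) ∧ ∀ e, F.P e = Y890.HE.pm (fun _ : Unit => n) e () :=
  ⟨fun _ _ _ _ _ F => ⟨F.mem, F.main⟩,
    fun n hn => ⟨ofSymp (Y890.SM.hyp (fun _ : Unit => n) fun _ => hn), rfl, fun _ => rfl⟩⟩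

end Pool.Agent.Results.MP_f11a48_ag.BigMonodromy
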