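import Pool.Agent.Run7.h225.HG.Sub

/-!
# Subtorsors which contain the periods of products of hypergeometric motives

Let `α_1, …, α_n` be rational numbers which are not integers, `n ≥ 2`, `θ = z d/dz` and `Q(x) = ∏_j (x + α_j)`. We consider
the hypergeometric operators `θ^n - z Q(θ)`, with maximally unipotent monodromy at `z = 0`, the exponents `α_j` at infinity and
a pseudoreflection at `z = 1` of determinant `exp(2πi s)`, `s = ∑_j α_j`. Up to rational gauge transformations the equation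
depends only on the `α_j` modulo `ℤ`; we normalise them such that `s = 0` if `s` is an integer, `Q(-x) = Q(x)` if the equation
is self-dual and `n` is even, and `Q(-1-x) = -Q(x)` if it is self-dual and `n` is odd. The period matrices of the
corresponding families of motives at `z` near `0` are `A(z) Y(z) Ω` with the matrix `Y` of the derivatives of the Frobenius
solutions, `A` over a number field `(z)` and `Ω` constant (the periods of the limit). We take a finite list of such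
equations, with exponents at infinity which are pairwise different modulo `ℤ` and different from those of the dual equations
(and not both an equation of order `2` with a reflection of order two at `1` and a self-dual one of order `3`, see Clausen's
formula), so the direct sum of the motives at the same point `z`.

The theorem is about the second equality in the period conjecture, without any bound for the degree: the smallest subtorsor
over a number field `K` which contains the period matrix of a direct sum of the motives at several points of a window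
`z_i = 1 / (ξ - G u_i)` around an arbitrary algebraic point `1 / ξ` near `0`, and of an arbitrary constant object, is as large
as the forms and the determinants allow, for all but a bounded number of points of the window and for all number fields of
bounded degree at once.
-/

set_option autoImplicit false

open PowerSeries Pool.Agent.Y119.HZ Pool.Agent.Run7.h225.HG

namespace Pool.Agent.Results.MP_f11a48_ag.HypergeometricSubtorsors

/-- A hypergeometric equation `θ^n f = z ∏_j (θ + α_j) f`. -/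
structure Eqn where
  n : ℕ
  α : Fin n → ℚ

/-- the dual equation (the exponents at infinity are `-α_j`) -/
def Eqn.dual (e : Eqn) : Eqn := ⟨e.n, fun j => -e.α j⟩

/-- the multiset of the fractional parts of the `α_j` -/
def Eqn.frac (e : Eqn) : Multiset ℚ := Multiset.map (fun j => Int.fract (e.α j)) Finset.univ.val

/-- the polynomial `Q = ∏_j (x + α_j)` -/
noncomputable def Eqn.poly (e : Eqn) : Polynomial ℚ := ∏ j, (Polynomial.X + Polynomial.C (e.α j))

/-- `Q(-x) = Q(x)` -/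
def Eqn.Symplectic (e : Eqn) : Prop := e.poly.comp (-Polynomial.X) = e.poly

/-- `Q(-1-x) = -Q(x)` -/
def Eqn.Orthogonal (e : Eqn) : Prop := e.poly.comp (-(Polynomial.X + 1)) = -e.poly

/-- The order is at least two, the exponents at infinity are not integers, their sum is `0` or not an integer, and either the
fractional parts of the `α_j` and of the `-α_j` are different multisets or `Q(-x) = Q(x)` or `Q(-1-x) = -Q(x)`. -/
def Eqn.Admissible (e : Eqn) : Prop :=
  2 ≤ e.n ∧ (∀ j, ∀ a : ℤ, e.α j ≠ a) ∧ (∑ j, e.α j = 0 ∨ ∀ a : ℤ, ∑ j, e.α j ≠ a) ∧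
  (e.frac ≠ e.dual.frac ∨ e.Symplectic ∨ e.Orthogonal)

/-- The equations of a list are admissible, the exponents at infinity of different equations of the list, and of one of
them and of the dual of another one, are different modulo `ℤ`, and the list does not contain both an equation of order two
such that `s = ∑_j α_j ≠ 0` and `2 s` is an integer and an equation of order three with `Q(-1-x) = -Q(x)`. -/
def Good {r : ℕ} (e : Fin r → Eqn) : Prop :=
  (∀ j, (e j).Admissible) ∧ (∀ i j, i ≠ j → (e i).frac ≠ (e j).frac ∧ (e i).frac ≠ (e j).dual.frac) ∧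
  ∀ i j, (e i).n = 2 → (∃ a : ℤ, 2 * ∑ l, (e i).α l = a) → ∑ l, (e i).α l ≠ 0 → (e j).n = 3 → ¬ (e j).Orthogonal

/-- the power series `k + ε` in the variable `ε` -/
noncomputable def shift (k : ℕ) : PowerSeries ℚ := C (k : ℚ) + X

/-- `a_k(ε) = ∏_{l < k} Q(l + ε) / (l + 1 + ε)^n`. The series `∑_k a_k(ε) z^(k + ε)` solves the equation
`(θ^n - z Q(θ)) f = ε^n z^ε`, hence its coefficients `f_j` at `ε^j` with `j < n` are solutions of the homogeneous
equation. -/
noncomputable def Eqn.frob (e : Eqn) (k : ℕ) : PowerSeries ℚ :=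
  ∏ l ∈ Finset.range k, (Polynomial.aeval (shift l) e.poly * ((shift (l + 1))⁻¹) ^ e.n)

/-- The matrix with the entries `(θ^i f_j)(z)` at `z = 1 / ξ`, where `f_j(z)` is the coefficient of `ε^j` in the series
`∑_k a_k(ε) z^(k + ε)`, `z^ε = ∑_a (log z)^a ε^a / a!`, with the value `-l` of `log z`, where `exp l = ξ`. -/
noncomputable def Eqn.Y (e : Eqn) (ξ l : ℂ) : Matrix (Fin e.n) (Fin e.n) ℂ :=
  Matrix.of fun i j => ∑ a ∈ Finset.range ((j : ℕ) + 1), (-l) ^ a / (a.factorial : ℂ) *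
    ∑' k : ℕ, ((coeff ((j : ℕ) - a) (shift k ^ (i : ℕ) * e.frob k) : ℚ) : ℂ) * (1 / ξ) ^ k

/-- The matrix of the alternating form: the entry `(i, j)` is `(-1)^i q_{i+j+1-n}` for `i + j + 1 ≥ n` and `0`
otherwise, where `q_l` are the coefficients of `Q`. -/
noncomputable def Eqn.J (e : Eqn) : Matrix (Fin e.n) (Fin e.n) ℂ :=
  Matrix.of fun i j => if e.n ≤ (i : ℕ) + j + 1 then (((-1) ^ (i : ℕ) * e.poly.coeff (i + j + 1 - e.n) : ℚ) : ℂ) else 0

/-- the polynomial `(Q(x) + Q(y)) / (x + y + 1)`, a polynomial in `y` with coefficients in `ℚ[x]` -/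
noncomputable def lagrange (Q : Polynomial ℚ) : Polynomial (Polynomial ℚ) :=
  (Polynomial.C Q + Q.map Polynomial.C) /ₘ (Polynomial.X + Polynomial.C (Polynomial.X + 1))

/-- The matrix of the symmetric form on the fibre at `z`: the entry `(i, j)` is the coefficient of `x^i y^j` in
`(x^n + y^n) / (x + y) - z (Q(x) + Q(y)) / (x + y + 1)`. -/
noncomputable def Eqn.B (e : Eqn) (z : ℂ) : Matrix (Fin e.n) (Fin e.n) ℂ :=
  Matrix.of fun i j => (if (i : ℕ) + j + 1 = e.n then (-1) ^ (i : ℕ) else 0) -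
    z * ((((lagrange e.poly).coeff j).coeff i : ℚ) : ℂ)

/-- The torsor of the equation at `z`: the matrices `X` with `det X = (1 - z)^(-s)` (principal branch), `s = ∑_j α_j`, and
`Xᵀ J X = J` if `Q(-x) = Q(x)`, and `Xᵀ B(z) X = B(0)` if `Q(-1-x) = -Q(x)`. -/
def Eqn.T (e : Eqn) (z : ℂ) : Set (Matrix (Fin e.n) (Fin e.n) ℂ) :=
  {X | X.det = Complex.exp (-((∑ j, e.α j : ℚ) : ℂ) * Complex.log (1 - z)) ∧
    (e.Symplectic → X.transpose * e.J * X = e.J) ∧ (e.Orthogonal → X.transpose * e.B z * X = e.B 0)}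

/-- the index set: `m` constants and the blocks `(i, j)` with `i < k`, `j < r` -/
abbrev Index {r : ℕ} (e : Fin r → Eqn) (k m : ℕ) : Type := Fin m ⊕ Σ p : Fin k × Fin r, Fin (e p.2).n

/-- the block matrix `C ⊕ ⨁_ij X_ij` -/
noncomputable def blocks {r k m : ℕ} {e : Fin r → Eqn} (C : Matrix (Fin m) (Fin m) ℂ)
    (X : Fin k → ∀ j, Matrix (Fin (e j).n) (Fin (e j).n) ℂ) : Matrix (Index e k m) (Index e k m) ℂ :=
  Matrix.fromBlocks C 0 0 (Matrix.blockDiagonal' fun p : Fin k × Fin r => X p.1 p.2)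

/-- `T` is the set of the complex points of a `K`-subtorsor of `GL_N`: the set of the invertible zeros of a family of
polynomials with coefficients in `K`, with `x y⁻¹ z ∈ T` for all `x, y, z ∈ T`. -/
def Subtorsor {N : Type} [Fintype N] [DecidableEq N] (K : IntermediateField ℚ ℂ) (T : Set (Matrix N N ℂ)) : Prop :=
  (∃ I : Set (MvPolynomial (N × N) K), T = {x | IsUnit x ∧ ∀ p ∈ I, MvPolynomial.aeval (fun b => x b.1 b.2) p = 0}) ∧
  ∀ x ∈ T, ∀ y ∈ T, ∀ z ∈ T, x * y⁻¹ * z ∈ T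

/-- the rational vector space generated by `1`, `2 π i`, the entries of the matrices `Ω_j` and the numbers `w` -/
noncomputable def Consts {r q : ℕ} {e : Fin r → Eqn} (Ω : ∀ j, Matrix (Fin (e j).n) (Fin (e j).n) ℂ) (w : Fin q → ℂ) :
    Submodule ℚ ℂ :=
  Submodule.span ℚ ({1, 2 * Real.pi * Complex.I} ∪
    Set.range (fun p : Σ j : Fin r, Fin (e j).n × Fin (e j).n => Ω p.1 p.2.1 p.2.2) ∪ Set.range w)

/-- For all matrices `C` with `m` rows and entries in the space of the constants: each subtorsor `T` over `K` which contains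
`C ⊕ ⨁ Y_j(1 / ξ_i) Ω_j` contains `C ⊕ ⨁ X_ij Ω_j` for all `X_ij ∈ T_j(1 / ξ_i)`. -/
def Full {r k q : ℕ} (m : ℕ) (e : Fin r → Eqn) (Ω : ∀ j, Matrix (Fin (e j).n) (Fin (e j).n) ℂ) (w : Fin q → ℂ)
    (ξ l : Fin k → ℂ) (K : IntermediateField ℚ ℂ) : Prop :=
  ∀ C : Matrix (Fin m) (Fin m) ℂ, (∀ a b, C a b ∈ Consts Ω w) → ∀ T : Set (Matrix (Index e k m) (Index e k m) ℂ),
    Subtorsor K T → blocks C (fun i j => (e j).Y (ξ i) (l i) * Ω j) ∈ T →
    ∀ X : Fin k → ∀ j, Matrix (Fin (e j).n) (Fin (e j).n) ℂ, (∀ i j, X i j ∈ (e j).T (1 / ξ i)) →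
      blocks C (fun i j => X i j * Ω j) ∈ T

/-- The motivic torsor of `ℚ(-1) ⊕ ⨁ M_j(z_i)` (for motives of weight `w_j`): the matrices `t ⊕ ⨁ X_ij` with a number
`t ≠ 0` and matrices `X_ij` with `det X_ij = c_ij t^(m_j)` and, if the equation `e_j` is self-dual, which carry the form `J_j`
resp. `B_j(z_i)` to `t^(w_j) S_j`. -/
def Motivic {r k : ℕ} (e : Fin r → Eqn) (w m : Fin r → ℤ) (S : ∀ j, Matrix (Fin (e j).n) (Fin (e j).n) ℂ)
    (c : Fin k → Fin r → ℂ) (z : Fin k → ℂ) : Set (Matrix (Index e k 1) (Index e k 1) ℂ) :=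
  {y | ∃ (t : ℂ) (X : Fin k → ∀ j, Matrix (Fin (e j).n) (Fin (e j).n) ℂ), t ≠ 0 ∧ y = blocks (t • 1) X ∧
    ∀ i j, (X i j).det = c i j * t ^ m j ∧
      ((e j).Symplectic → (X i j).transpose * (e j).J * X i j = t ^ w j • S j) ∧
      ((e j).Orthogonal → (X i j).transpose * (e j).B (z i) * X i j = t ^ w j • S j)}

/-- Every subtorsor over `K` which contains `2 π i ⊕ ⨁ Y_j(1 / ξ_i) Ω_j` and is contained in a torsor `Motivic` is equal to
this torsor. -/
def Absolute {r k : ℕ} (e : Fin r → Eqn) (Ω : ∀ j, Matrix (Fin (e j).n) (Fin (e j).n) ℂ) (ξ l : Fin k → ℂ)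
    (K : IntermediateField ℚ ℂ) : Prop :=
  ∀ (w m : Fin r → ℤ) (S : ∀ j, Matrix (Fin (e j).n) (Fin (e j).n) ℂ) (c : Fin k → Fin r → ℂ)
    (T : Set (Matrix (Index e k 1) (Index e k 1) ℂ)), Subtorsor K T →
    blocks ((2 * Real.pi * Complex.I) • 1) (fun i j => (e j).Y (ξ i) (l i) * Ω j) ∈ T →
    T ⊆ Motivic e w m S c (fun i => 1 / ξ i) → T = Motivic e w m S c fun i => 1 / ξ i

/-- `ξ` is a root of a nonzero integral polynomial of degree at most `g` with coefficients of size at most `|ξ|^A` -/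
def Height (g A : ℕ) (ξ : ℂ) : Prop :=
  ∃ p : Polynomial ℤ, p ≠ 0 ∧ p.natDegree ≤ g ∧ (∀ j, |(p.coeff j : ℝ)| ≤ ‖ξ‖ ^ A) ∧ Polynomial.aeval ξ p = 0

theorem frob_eq (e : Eqn) (k : ℕ) : e.frob k = Pool.Agent.Y119.HY.aq e.n e.poly k := rfl

theorem J_eq (e : Eqn) : e.J = Pool.Agent.Y119.HY.cm (Pool.Agent.Y119.HY.Jm e.n e.poly) := by
  ext i j
  rw [Pool.Agent.Y119.HY.cm_apply]
  unfold Eqn.J Pool.Agent.Y119.HY.Jm
  rw [Matrix.of_apply, Matrix.of_apply]
  split_ifs
  · rfl
  · simp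

theorem B_eq (e : Eqn) (z : ℂ) : e.B z = Run7.h893.HO.Bz (Pool.Agent.Y119.HY.cm (Run7.h893.HO.J0m e.n))
    (Pool.Agent.Y119.HY.cm (Run7.h893.HO.J1m e.n e.poly)) z := by
  ext i j
  unfold Eqn.B Run7.h893.HO.Bz
  rw [Matrix.of_apply, Matrix.sub_apply, Matrix.smul_apply, Pool.Agent.Y119.HY.cm_apply, Pool.Agent.Y119.HY.cm_apply,
    smul_eq_mul]
  congr 1
  unfold Run7.h893.HO.J0m
  rw [Matrix.of_apply]
  split_ifs
  · push_cast
    rfl
  · rw [Rat.cast_zero]

theorem Y_eq (e : Eqn) (ξ l : ℂ) : e.Y ξ l = Pool.Agent.Y119.HY.Hf (Pool.Agent.Y119.HY.Hc e.n e.poly) (1 / ξ) *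
    Pool.Agent.Y119.HY.E (Pool.Agent.Y119.HY.cm (Pool.Agent.Y119.HY.Am e.n)) (-l) := by
  ext i j
  unfold Eqn.Y
  rw [Matrix.of_apply, Matrix.mul_apply]
  have hE : ∀ c : Fin e.n, Pool.Agent.Y119.HY.E (Pool.Agent.Y119.HY.cm (Pool.Agent.Y119.HY.Am e.n))
      (-l) c j = ∑ a ∈ Finset.range e.n, if (j : ℕ) = c + a then (-l) ^ a / (a.factorial : ℂ) else 0 := by
    intro c
    unfold Pool.Agent.Y119.HY.E
    rw [Matrix.sum_apply]
    refine Finset.sum_congr rfl fun a _ => ?_
    rw [Matrix.smul_apply, ← Pool.Agent.Y119.HY.cm_pow, Pool.Agent.Y119.HY.cm_apply, Pool.Agent.Y119.HY.Am_pow, smul_eq_mul]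
    split_ifs
    · push_cast
      ring
    · simp
  simp only [hE, Finset.mul_sum]
  rw [Finset.sum_comm]
  have hsub : Finset.range ((j : ℕ) + 1) ⊆ Finset.range e.n := by
    intro a ha
    rw [Finset.mem_range] at ha ⊢
    have := j.2
    omega
  refine Finset.sum_subset_zero_on_sdiff hsub (fun a ha => ?_) fun a ha => ?_
  · rw [Finset.mem_sdiff, Finset.mem_range, Finset.mem_range] at ha
    refine Finset.sum_eq_zero fun c _ => ?_
    rw [if_neg (by omega), mul_zero]
  · rw [Finset.mem_range] at ha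
    have hj := j.2
    rw [Finset.sum_eq_single (⟨(j : ℕ) - a, by omega⟩ : Fin e.n)]
    · rw [if_pos (by simp only; omega), mul_comm]
      congr 1
    · intro c _ hc
      rw [if_neg, mul_zero]
      intro h
      apply hc
      apply Fin.ext
      simp only
      omega
    · intro h
      exact absurd (Finset.mem_univ _) h

theorem types {r : ℕ} {e : Fin r → Eqn} (he : Good e) : ∃ W, JU (fun j => (e j).n) (fun j => (e j).poly) W :=
  JU_QA (n := fun j => (e j).n) (α := fun j => (e j).α) (fun j => (he.1 j).1) (fun j => (he.1 j).2.1)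
    (fun j => (he.1 j).2.2.1) (fun j => (he.1 j).2.2.2) (fun i j hij => he.2.1 i j hij) he.2.2

theorem T_eq {e : Eqn} (he : e.Admissible) (z : ℂ) : e.T z = TU e.n e.poly (Complex.log (1 - z)) z := by
  have h1 : e.poly.coeff (e.n - 1) = ∑ j, e.α j := QA_coeff (by have := he.1; omega) e.α
  have hQ := QG_QA he.1 (nonint he.2.1)
  have hB : e.B 0 = Pool.Agent.Y119.HY.cm (Run7.h893.HO.J0m e.n) := by
    rw [B_eq]
    unfold Run7.h893.HO.Bz
    rw [zero_smul, sub_zero]
  ext X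
  unfold Eqn.T TU
  rw [h1, J_eq, hB, B_eq]
  refine and_congr_right fun _ => and_congr ⟨fun h h2 => h ?_, fun h h2 => h ?_⟩ ⟨fun h h2 => h h2.sym, fun h h2 => h ?_⟩
  · exact even_of_QD h2
  · exact QD_of_even hQ h2
  · exact QO_of_comp he.1 (nonint he.2.1) h2

theorem mem_T {e : Eqn} (he : e.Admissible) {ξ l : ℂ} (hξ : 1 < ‖ξ‖) : e.Y ξ l ∈ e.T (1 / ξ) := by
  rw [T_eq he, Y_eq]
  refine mem_TU (QG_QA he.1 (nonint he.2.1)) ?_ _
  rw [norm_div, norm_one, div_lt_one (by linarith)]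
  exact hξ

theorem sub_of {N : Type} [Fintype N] [DecidableEq N] {K : IntermediateField ℚ ℂ} {T : Set (Matrix N N ℂ)}
    (hT : Subtorsor K T) : Pool.Agent.TH127.PT.IsSubtorsor K.toSubfield T := by
  obtain ⟨⟨I, hI⟩, h⟩ := hT
  refine ⟨fun x hx => ?_, h, ⟨MvPolynomial.map (algebraMap K ℂ) '' I, ?_, fun x => ?_⟩⟩
  · rw [hI] at hx
    exact hx.1
  · rintro _ ⟨p, -, rfl⟩ m
    rw [MvPolynomial.coeff_map]
    exact (p.coeff m).2
  · have h1 : ∀ p : MvPolynomial (N × N) K, MvPolynomial.eval (fun b => x b.1 b.2) (MvPolynomial.map (algebraMap K ℂ) p) =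
        MvPolynomial.aeval (fun b => x b.1 b.2) p := fun p => by
      rw [MvPolynomial.eval_map, MvPolynomial.aeval_def]
    rw [hI]
    constructor
    · rintro ⟨h2, h3⟩
      refine ⟨h2, ?_⟩
      rintro _ ⟨p, hp, rfl⟩
      rw [h1]
      exact h3 p hp
    · rintro ⟨h2, h3⟩
      refine ⟨h2, fun p hp => ?_⟩
      rw [← h1]
      exact h3 _ ⟨p, hp, rfl⟩

theorem fin_of {K : IntermediateField ℚ ℂ} (h : FiniteDimensional ℚ K) :
    FiniteDimensional ℚ K.toSubfield ∧ Module.finrank ℚ K.toSubfield = Module.finrank ℚ K := by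
  let f : K ≃+ K.toSubfield := AddEquiv.refl _
  let f' : K ≃ₗ[ℚ] K.toSubfield := f.toLinearEquiv (fun c x => map_rat_smul f c x)
  exact ⟨Module.Finite.equiv f', f'.finrank_eq.symm⟩

theorem alg_of {K : IntermediateField ℚ ℂ} (h : FiniteDimensional ℚ K) : ∀ x ∈ K.toSubfield, IsAlgebraic ℚ x := by
  intro x hx
  have h1 : IsAlgebraic ℚ (⟨x, hx⟩ : K) := Algebra.IsAlgebraic.isAlgebraic _
  exact h1.algebraMap (A := ℂ)

/-- the tuple of all constants -/
noncomputable def cst {q : ℕ} (w : Fin q → ℂ) : Fin (q + 1) → ℂ := Fin.cons (2 * Real.pi * Complex.I) w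

theorem span_eq {r q : ℕ} {e : Fin r → Eqn} (Ω : ∀ j, Matrix (Fin (e j).n) (Fin (e j).n) ℂ) (w : Fin q → ℂ) :
    Consts Ω w = Submodule.span ℚ (insert 1 (Set.range (cs (n := fun j => (e j).n) Ω (cst w)))) := by
  unfold Consts
  congr 1
  ext x
  constructor
  · rintro (((rfl | rfl) | ⟨p, rfl⟩) | ⟨l, rfl⟩)
    · exact Or.inl rfl
    · exact Or.inr ⟨Sum.inr 0, rfl⟩
    · exact Or.inr ⟨Sum.inl p, rfl⟩
    · exact Or.inr ⟨Sum.inr l.succ, rfl⟩
  · rintro (rfl | ⟨p | l, rfl⟩)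
    · exact Or.inl (Or.inl (Or.inl rfl))
    · exact Or.inl (Or.inr ⟨p, rfl⟩)
    · refine Fin.cases ?_ (fun l => ?_) l
      · exact Or.inl (Or.inl (Or.inr rfl))
      · exact Or.inr ⟨l, rfl⟩

/-- Let `e_1, …, e_r` be a good list of hypergeometric equations. Then the matrices `Y_j(1 / ξ)` lie in the torsors
`T_j(1 / ξ)` for `|ξ| > 1`, for all branches, and there is `G_0` such that for all `G ≥ G_0`, all constant matrices `Ω_j` and
all `q`, `k`, `m`, `g`, `d`, `A` there is `E` such that for all `H` and all algebraic `ξ` of degree `≤ g` and of height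
`≤ |ξ|^A` with `|ξ| ≥ (H + 2)^E` and all `w ∈ ℂ^q` there are at most `trdeg ℚ(2 π i, Ω) + q + 2` exceptional numbers such that
for all `k`-tuples of distinct points `z_i = 1 / (ξ - G u_i)` with `u_i ∈ {1, …, H}` not exceptional, all branches and all
number fields `K` of degree `≤ d`, all `K`-subtorsors, of any degree, which contain a direct sum of a constant object and of
the `Y_j(z_i) Ω_j` contain all points of the torsors, and those which contain `2 π i ⊕ ⨁ Y_j(z_i) Ω_j` and lie in a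
torsor `Motivic` are equal to it. -/
theorem result {r : ℕ} (e : Fin r → Eqn) (he : Good e) :
    (∀ ξ l : ℂ, 1 < ‖ξ‖ → Complex.exp l = ξ → ∀ j, (e j).Y ξ l ∈ (e j).T (1 / ξ)) ∧
    ∃ G₀ : ℕ, ∀ G : ℕ, G₀ ≤ G → ∀ (Ω : ∀ j, Matrix (Fin (e j).n) (Fin (e j).n) ℂ) (q k m g d A : ℕ), ∃ E : ℕ,
      ∀ (H : ℕ) (ξ : ℂ), Height g A ξ → ((H : ℝ) + 2) ^ E ≤ ‖ξ‖ → ∀ w : Fin q → ℂ, ∃ S : Finset ℕ,
      (S.card : Cardinal) ≤ Algebra.trdeg ℚ (IntermediateField.adjoin ℚ (insert (2 * Real.pi * Complex.I)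
        (Set.range fun p : Σ j : Fin r, Fin (e j).n × Fin (e j).n => Ω p.1 p.2.1 p.2.2))) + q + 2 ∧
      ∀ u : Fin k → ℕ, Function.Injective u → (∀ i, 1 ≤ u i ∧ u i ≤ H ∧ u i ∉ S) → (∀ i, 1 < ‖ξ - G * u i‖) ∧
        ∀ l : Fin k → ℂ, (∀ i, Complex.exp (l i) = ξ - G * u i) →
        ∀ K : IntermediateField ℚ ℂ, FiniteDimensional ℚ K → Module.finrank ℚ K ≤ d →
          Full m e Ω w (fun i => ξ - G * u i) l K ∧ Absolute e Ω (fun i => ξ - G * u i) l K := by
  classical
  obtain ⟨W, hJ⟩ := types he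
  refine ⟨fun ξ l hξ _ j => mem_T (he.1 j) hξ, ?_⟩
  obtain ⟨G₀, -, hW⟩ := win_joint (tg hJ) p_GFS p_WINA hJ
  refine ⟨G₀, fun G hG Ω q k m g d A => ?_⟩
  obtain ⟨d₀, hd⟩ := Sub.stab_point ((m + 1) + ∑ p : Fin k × Fin r, (e p.2).n) d
  obtain ⟨Ex, h1⟩ := hW G hG Ω (q + 1) k g 1 d₀ A
  refine ⟨Ex, fun H ξ hht hξ w => ?_⟩
  obtain ⟨S, hS, h2⟩ := h1 H ξ hξ hht (cst w)
  refine ⟨S, ?_, fun u hu hub => ?_⟩
  · refine hS.trans (le_of_eq ?_)
    push_cast
    rw [add_assoc, add_assoc, add_assoc, one_add_one_eq_two]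
  obtain ⟨h3, h4⟩ := h2 u hu hub
  have hcast : ∀ i, ((G * u i : ℕ) : ℂ) = G * u i := fun i => by push_cast; rfl
  simp only [hcast] at h3 h4
  refine ⟨h3, fun l hl K hKf hKd => ?_⟩
  set x : Fin k → ℂ := fun i => ξ - G * u i with hx
  have hY : ∀ p : Fin k × Fin r, (e p.2).Y (x p.1) (l p.1) ∈ TU (e p.2).n (e p.2).poly (Complex.log (1 - 1 / x p.1))
      (1 / x p.1) := fun p => by
    rw [← T_eq (he.1 p.2)]
    exact mem_T (he.1 p.2) (h3 p.1)
  choose F hF hFG using fun p => Sub.form_G (hY p)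
  -- the relations
  have hRl : ∀ (m' : ℕ) (C : Matrix (Fin m') (Fin m') ℂ), (∀ a b, C a b ∈ Consts Ω w) →
      ∀ g : ∀ p : Fin k × Fin r, (Matrix (Fin (e p.2).n) (Fin (e p.2).n) ℂ)ˣ,
      (∀ p, g p ∈ Pool.Agent.Y123.GN.GB (F p)) →
      Pool.Agent.Y123.GN.Rl ⊥ d₀ (Sub.EG C fun p : Fin k × Fin r => (e p.2).Y (x p.1) (l p.1) * Ω p.2)
        (Sub.EG C fun p : Fin k × Fin r => (g p : Matrix (Fin (e p.2).n) (Fin (e p.2).n) ℂ) *
          ((e p.2).Y (x p.1) (l p.1) * Ω p.2)) := by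
    intro m' C hC g hg
    have hC' : ∀ b : Fin m' × Fin m', C b.1 b.2 ∈ Submodule.span ℚ
        (insert 1 (Set.range (cs (n := fun j => (e j).n) Ω (cst w)))) := fun b => by
      rw [← span_eq]
      exact hC _ _
    choose L hL1 hL2 using fun b => Sub.span_poly (hC' b)
    have hren : ∀ (b : Fin m' × Fin m') (y : Cj (fun j => (e j).n) k → ℂ), MvPolynomial.aeval
        (Sum.elim (cs (n := fun j => (e j).n) Ω (cst w)) y) (MvPolynomial.rename Sum.inl (L b)) = C b.1 b.2 := by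
      intro b y
      rw [MvPolynomial.aeval_rename]
      exact hL2 b
    refine Sub.Rl_sub (V := ((Σ j : Fin r, Fin (e j).n × Fin (e j).n) ⊕ Fin (q + 1)) ⊕ Cj (fun j => (e j).n) k)
      (x := Sum.elim (cs (n := fun j => (e j).n) Ω (cst w)) (pjc (n := fun j => (e j).n) l
        (fun i j => (e j).Y (x i) (l i) * Ω j)))
      (y := Sum.elim (cs (n := fun j => (e j).n) Ω (cst w)) (pjc (n := fun j => (e j).n) l
        (fun i j => ((g (i, j) : Matrix (Fin (e j).n) (Fin (e j).n) ℂ) * (e j).Y (x i) (l i)) * Ω j)))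
      (fun b => MvPolynomial.rename Sum.inl (L b)) (fun b => (MvPolynomial.totalDegree_rename_le _ _).trans (hL1 b))
      (fun v => Sum.inr ⟨v.1.1, some ⟨v.1.2, v.2⟩⟩) (fun b => hren b _) (fun p b => rfl) (fun b => hren b _)
      (fun p b => ?_) ?_
    · show (((g (p.1, p.2) : Matrix (Fin (e p.2).n) (Fin (e p.2).n) ℂ) * (e p.2).Y (x p.1) (l p.1)) * Ω p.2) b.1 b.2 = _
      rw [Matrix.mul_assoc]
    · intro P hPd hP0
      refine h4 l hl ⊥ inferInstance (by rw [IntermediateField.finrank_bot]) P hPd (by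
        simp only [Y_eq] at hP0
        exact hP0) l (fun i j => (g (i, j) : Matrix (Fin (e j).n) (Fin (e j).n) ℂ) * (e j).Y (x i) (l i)) fun i j => ?_
      obtain ⟨h5, h6, h7⟩ := (hFG (i, j) (g (i, j))).1 (hg (i, j))
      exact Sub.T_act (hY (i, j)) h5 h6 h7
  -- the stability
  have stable : ∀ (m' : ℕ), m' ≤ m + 1 → ∀ C : Matrix (Fin m') (Fin m') ℂ, (∀ a b, C a b ∈ Consts Ω w) →
      ∀ T : Set (Matrix (Index e k m') (Index e k m') ℂ), Subtorsor K T →
      blocks C (fun i j => (e j).Y (x i) (l i) * Ω j) ∈ T →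
      ∀ g : ∀ p : Fin k × Fin r, (Matrix (Fin (e p.2).n) (Fin (e p.2).n) ℂ)ˣ,
      (∀ p, g p ∈ Pool.Agent.Y123.GN.GB (F p)) → ∀ y ∈ T,
        Sub.EG 1 (fun p => (g p : Matrix (Fin (e p.2).n) (Fin (e p.2).n) ℂ)) * y ∈ T := by
    intro m' hm' C hC T hT hc g hg
    refine hd (Fin m') (Fin k × Fin r) (fun p => (e p.2).n) ?_ C
      (fun p : Fin k × Fin r => (e p.2).Y (x p.1) (l p.1) * Ω p.2) F hF (hRl m' C hC) K.toSubfield (fin_of hKf).1
      ((fin_of hKf).2.le.trans hKd) T (sub_of hT) hc g hg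
    rw [Sub.card_IG, Fintype.card_fin]
    omega
  refine ⟨?_, ?_⟩
  · intro C hC T hT hc X hX
    have hdet : ∀ p : Fin k × Fin r, ((e p.2).Y (x p.1) (l p.1)).det ≠ 0 := fun p => by
      rw [(hY p).1]
      exact Complex.exp_ne_zero _
    have hXd : ∀ p : Fin k × Fin r, (X p.1 p.2).det = ((e p.2).Y (x p.1) (l p.1)).det := fun p => by
      have h5 := hX p.1 p.2
      rw [T_eq (he.1 p.2)] at h5
      rw [h5.1, (hY p).1]
    choose g hg1 hg2 hg3 using fun p => Sub.quot_G (hdet p) (hXd p)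
    have h5 := stable m (by omega) C hC T hT hc g (fun p => (hFG p (g p)).2 ⟨hg1 p, fun hD => hg3 p _ ?_,
      fun hO => hg3 p _ ?_⟩) _ hc
    · have h6 : Sub.EG 1 (fun p => (g p : Matrix (Fin (e p.2).n) (Fin (e p.2).n) ℂ)) *
          blocks C (fun i j => (e j).Y (x i) (l i) * Ω j) = blocks C (fun i j => X i j * Ω j) := by
        show Sub.EG 1 _ * Sub.EG C (fun p : Fin k × Fin r => (e p.2).Y (x p.1) (l p.1) * Ω p.2) = Sub.EG C _
        rw [Sub.EG_mul, Matrix.one_mul]
        congr 1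
        funext p
        rw [← Matrix.mul_assoc, hg2 p]
      rw [h6] at h5
      exact h5
    · have h6 := hX p.1 p.2
      rw [T_eq (he.1 p.2)] at h6
      rw [h6.2.1 hD, (hY p).2.1 hD]
    · have h6 := hX p.1 p.2
      rw [T_eq (he.1 p.2)] at h6
      rw [h6.2.2 hO, (hY p).2.2 hO]
  · intro w' m' S' c T hT hc hTM
    refine Set.Subset.antisymm hTM ?_
    rintro _ ⟨t, X, ht, rfl, hX⟩
    have htpi : Pool.Agent.Y123.GN.tpi = 2 * Real.pi * Complex.I := rfl
    have hc' : Sub.EG (Pool.Agent.Y123.GN.tpi • (1 : Matrix (Fin 1) (Fin 1) ℂ))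
        (fun p : Fin k × Fin r => (e p.2).Y (x p.1) (l p.1) * Ω p.2) ∈ T := hc
    have hTs := sub_of hT
    obtain ⟨X', hX'⟩ := Sub.tate_all (alg_of hKf) hTs hc' ht
    obtain ⟨t', X'', ht', hXX, hX''⟩ := hTM hX'
    obtain ⟨h5, h6⟩ := Sub.EG_inj (y := t' • (1 : Matrix (Fin 1) (Fin 1) ℂ))
      (Y := fun p : Fin k × Fin r => X'' p.1 p.2) hXX
    have h7 : t = t' := Sub.smul_one_inj h5
    subst h7
    subst h6
    have hdet : ∀ p : Fin k × Fin r, (X'' p.1 p.2).det ≠ 0 := fun p =>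
      ((Matrix.isUnit_iff_isUnit_det _).1 (Sub.EG_block_unit (hTs.isUnit _ hX') p)).ne_zero
    have hXd : ∀ p : Fin k × Fin r, (X p.1 p.2).det = (X'' p.1 p.2).det := fun p => by
      rw [(hX p.1 p.2).1, (hX'' p.1 p.2).1]
    choose g hg1 hg2 hg3 using fun p => Sub.quot_G (hdet p) (hXd p)
    have hC : ∀ a b, (((2 * Real.pi * Complex.I : ℂ)) • (1 : Matrix (Fin 1) (Fin 1) ℂ)) a b ∈ Consts Ω w := by
      intro a b
      have h8 : a = b := Subsingleton.elim _ _
      subst h8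
      rw [Matrix.smul_apply, Matrix.one_apply_eq, smul_eq_mul, mul_one]
      exact Submodule.subset_span (Or.inl (Or.inl (Or.inr rfl)))
    have h9 := stable 1 (by omega) _ hC T hT hc g (fun p => (hFG p (g p)).2 ⟨hg1 p, fun hD => hg3 p _ ?_,
      fun hO => hg3 p _ ?_⟩) _ hX'
    · have h10 : Sub.EG 1 (fun p => (g p : Matrix (Fin (e p.2).n) (Fin (e p.2).n) ℂ)) *
          Sub.EG (t • (1 : Matrix (Fin 1) (Fin 1) ℂ)) (fun p : Fin k × Fin r => X'' p.1 p.2) =
          blocks (t • 1) (fun i j => X i j) := by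
        rw [Sub.EG_mul, Matrix.one_mul]
        show Sub.EG _ _ = Sub.EG _ (fun p : Fin k × Fin r => X p.1 p.2)
        congr 1
        funext p
        exact hg2 p
      rw [h10] at h9
      exact h9
    · have h11 := (hX p.1 p.2).2.1 (even_of_QD hD)
      have h12 := (hX'' p.1 p.2).2.1 (even_of_QD hD)
      rw [J_eq] at h11 h12
      exact h11.trans h12.symm
    · have h11 := (hX p.1 p.2).2.2 hO.sym
      have h12 := (hX'' p.1 p.2).2.2 hO.sym
      rw [B_eq] at h11 h12
      exact h11.trans h12.symm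

end Pool.Agent.Results.MP_f11a48_ag.HypergeometricSubtorsors
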