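import Pool.Agent.Run7.h358.A1.Tor

set_option autoImplicit false

/-!
# The period torsors of the motives of abelian varieties whose Hodge group is of type `A_1`

Let `A` be an abelian variety over `ℚ̄` and let `M` be any André motive over `ℚ̄` in the tensor
category generated by `h^1(A)` and the Tate motives. Let `P` be the matrix of the periods
of `M`, and let `G ⊆ GL(H_B(M))` be *any* algebraic group over `ℚ` such that the comparison
isomorphism of `M` is a point of a torsor of `G` defined over `ℚ̄`: `P T ∈ G(ℂ)` for some matrix `T`
with algebraic entries. The group `G_dRB(M)` is the smallest group of this kind, and `Ω_M^{dRB}` is its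
torsor. By theorems of Deligne and André the motivic Galois group of `M` is its Mumford-Tate group
`MT(M)`, and `P` is a point of the torsor `Ω_M^{And}` of `MT(M)`. The conjecture of Grothendieck (Q1)
says that `P` is a generic point of this torsor; in particular it predicts that every such `G`
contains `MT(M)`. This is the part `Ω_M^{dRB} = Ω_M^{And}` of Q1. (The prediction for all motives in the
tensor category of `M` is equivalent to: all de Rham-Betti classes in the tensor constructions of `M` are
Hodge classes. Nothing is said here about the torsor `Ω_M`, which is defined with algebraic groups over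
`ℚ̄`.)

**Theorem.** Let `A` be an abelian variety over `ℚ̄` whose Hodge group is of type `A_1` (with the condition
on pairs of factors explained below, which is satisfied after the replacement of `A` by a larger abelian
variety), and let `M` be any motive in the tensor category generated by `h^1(A)` and the Tate motives.

1. The group `G` contains the derived group of `MT(M)`: it contains `exp (t Z)` for all complex numbers
   `t` and all elements `Z` of the derived algebra of the Lie algebra of the Hodge group, acting
   on `M`.
2. If the condition `ControlledCentre` on the centre of the Hodge group is true, then `G` contains `MT(M)`,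
   so `Ω_M^{dRB} = Ω_M^{And}`.

In particular `Ω_M^{dRB} = Ω_M^{And}` for all motives `M` in the tensor category generated by `h^1(A)`, for
*all* abelian varieties `A` over `ℚ̄` whose Hodge group is of type `A_1`, if the centres of the endomorphism
algebras of the simple factors of type IV are abelian over `ℚ` (or if there are no such factors), and for all
simple abelian fourfolds of type IV(2,1).

There is no condition on the Mumford-Tate domain of `M`, and `G` is not assumed to be reductive. The
previous results on such torsors in this repository (`DivisionAlgebraPeriods`, `ProductsOfBalls`,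
`DivisionAlgebrasOfPrimeDegree`, `CentreOfPeriodTorsors`, `MixedSignatureTorsors`) are on abelian varieties
of unitary types; for a commutant of dimension `4` over `F` they assume that it is a division algebra
(`DivisionType`), or do not apply (`BallType`), and that the centre is rigid. The theorem
`MP_bf54cf_ag.HodgeGroupTypeA1` (by helper21) is on de Rham-Betti classes, not on torsors, and it assumes the
separated position for all pairs of factors, so that it does not contain abelian varieties with
compact factors which do not act on a common constituent with the noncompact factors (for example the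
fourfolds of type IV(2,1)). In the literature I know the theorems of Kreutz, Shen and Vial (products of
elliptic curves, some abelian surfaces, Hodge structures of K3 type with small transcendental part) and of
Ji (simple abelian fourfolds of type IV with complex multiplication, or such that `End(A) ⊗ ℚ` is a
quadratic field).

Nothing is assumed about periods: `AbVar` is the description of an abelian variety over `ℚ̄` by theta
functions (see `Pool/Agent/Y102/AVDefs.lean`, where it is explained why every abelian variety has it),
and the transcendence theorems which are used, the theorem of Schneider and Lang and the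
transcendence of `π`, are proved in this repository.

## Type `A_1`

Let `𝔤` be the Lie algebra of the endomorphisms of `H_1(A, ℚ)` which annihilate all classes that are Hodge
classes and de Rham-Betti classes (`InLie`); by the theorem of Deligne it is the Lie algebra of the Hodge
group of `A`. The Hodge group is *of type `A_1`* if the derived algebra of `𝔤 ⊗ ℂ` is a sum of Lie algebras
`sl(2)`. By the classification of the symplectic representations of Hodge groups (Deligne, Satake) the
irreducible constituents of `H_1(A, ℂ)` are then tensor products `V_S ⊗ χ` of the standard representations of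
the factors `i ∈ S` and of a character of the centre. In `TypeA1` the factors are given by
homomorphisms `φ i` (without unit element) from the algebra of the matrices of size two to the
endomorphisms of `H_1(A, ℂ)`, such that `𝔤 ⊗ ℂ` is the sum of its centre and of the `φ i (sl(2))`. Let
`i ≠ k` be two factors. We assume that one of the following is true:

* (`CompactAt`) for some automorphism `σ` of `ℂ` one of the conjugates `σ(i)` and `σ(k)` is a compact
  factor (it commutes with the complex structure of `H_1(A, ℝ)`), and the other one is not compact;
* (`InSeparatedPosition`) there is a constituent on which `i` and `k` both act nontrivially, or there are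
  constituents `V ⊗ U` and `V' ⊗ U`, where `V` and `V'` are the standard representations of `i` and `k`, and
  `U` is a representation of the other factors and of the centre.

**Every abelian variety `A` over `ℚ̄` whose Hodge group is of type `A_1` is a factor of an abelian variety
over `ℚ̄` with this property.** Suppose that the first condition is false for `i` and `k`, and that `k` acts
trivially on a constituent `V ⊗ U`, where `V` is the standard representation of `i`. Then for all `σ` the
conjugate by `σ` of `V' ⊗ U` has the same Hodge types as that of `V ⊗ U`, that is `(-1, 0)` and `(0, -1)`, as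
`σ(i)` and `σ(k)` are both compact or both noncompact. So there is an abelian variety `A'` whose constituents
are these representations, and it is defined over `ℚ̄`, as it has the same adjoint Hodge group as `A` (the
maps between the Shimura varieties are defined over `ℚ̄`). The factors `i` and `k` are in separated position
for `A × A'`, whose Hodge group has the same adjoint group; and its centre is zero if the centre of the Hodge
group of `A` is finite. The motives in the tensor category generated by `h^1(A)` are among those in the tensor
category generated by `h^1(A × A')`.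

Examples of abelian varieties whose Hodge group is of type `A_1`: all products of elliptic curves; the
abelian surfaces with real or quaternionic multiplication; the simple abelian varieties of the types I and II
of Albert whose commutant of `End(A)` has dimension four over its centre; the abelian varieties of Mumford
(`H_1(A, ℂ) = ℂ² ⊗ ℂ² ⊗ ℂ²`, `End(A) = ℤ`, with Hodge classes on `A ^ 2` which are not combinations of products of
classes of divisors) and their generalizations; the Kuga-Satake varieties of Hodge structures of K3 type of
rank three and four over the field of their endomorphisms, if it is totally real; the simple abelian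
fourfolds of type IV(2,1), where `End(A) ⊗ ℚ` is a CM field of degree four; in general,
the abelian varieties which belong to the quaternionic Shimura varieties of all totally real fields `F₀`,
for instance to the Shimura curves, for all symplectic embeddings (the *modèles étranges* of Deligne), where some
factors are compact; and all products of such abelian varieties and abelian varieties with complex
multiplication.

## The centre

The condition `ControlledCentre`: `A` is a factor of an abelian variety `C` such that the centre of the Lie
algebra of the Hodge group of `C` is rigid, and all elements of the centre of `𝔤` are restrictions of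
elements of it. *Rigid* means: for every element `X` of the centre which generates it relative to the derived
algebra (`Generates`), all relations `∑ x i = 0` between eigenvalues of `X` for eigenvectors `v i` imply the
relations `∑ y i = 0` for the eigenvalues of all elements `Y` of the centre, for the same eigenvectors.
If `A` has no factor of type IV then the centre is zero, and the condition is true with `C = A`.

**The condition is true for all `A` such that the centres of the endomorphism algebras of the simple factors
of type IV are abelian over `ℚ`.** Let `L` be a CM field which contains these centres and is Galois over `ℚ`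
with an abelian group `Γ`, and let `C` be the product of `A` and of the abelian varieties `A_Φ` with complex
multiplication by `L` and of the type `Φ`, for all CM types `Φ ⊆ Γ`. The centre of the Lie algebra of the
Hodge group of `C` consists of the elements `x ∈ L` with `x̄ = - x`: it is the odd part of the Lie algebra of
the Serre torus of `L`, as this torus is generated by the conjugates of its cocharacter, and is mapped onto
the centre for `A`. The eigenvalues of `x` on `H_1(A_Φ, ℂ)` are the conjugates of `∑_{t ∈ Φ} t⁻¹(x)`, and all
the eigenvalues on `H_1(C, ℂ)` are of the form `∑_t c_t t⁻¹(x)` with odd rational functions `c` on `Γ`. A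
nonzero odd function `f` with the values `0`, `1`, `-1` is the difference of two CM types `Φ`, `Φ'`, and so
`∑_t f_t t⁻¹(x) ≠ 0` if `x` is generating: otherwise a homomorphism between the homologies of `A_Φ` and `A_Φ'`
commutes with `x`, and not with the centre. The odd functions `c` with `∑_t c_t t⁻¹(x) = 0` are an ideal of
`ℚ[Γ]`. If there is a function `c ≠ 0` in it, let `χ` be a character of `Γ` with `∑_t c_t χ(t) ≠ 0`, let `N` be the
kernel of `χ`, and `τ_q ∈ Γ` an element whose image in the cyclic group `Γ / N` is of order `q`, for all prime
numbers `q` which divide the order of this group. The element `f = ∏_q (1 - τ_q) ∑_{n ∈ N} n` has the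
coefficients `0`, `1`, `-1`, and it is in the ideal, because `ψ(f) ≠ 0` for the conjugates `ψ` of `χ` only.
This is a contradiction, so the only relations between the eigenvalues of `x` are those which hold for
all elements of the centre. (This is the argument of the starting file `MP_470b79_ag.AbelianCMTensors` on
complex multiplication by abelian fields.)

Let `A` be a simple abelian fourfold such that `End(A) ⊗ ℚ` is a CM field `F` of degree four. Then `A` is of
type `A_1` with one compact and one noncompact factor (Shimura), and the centre consists of the elements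
`x ∈ F` with `x̄ = - x`. If `F` is not abelian over `ℚ` then it has no imaginary quadratic subfield, and so
different conjugates `a`, `b ≠ - a` of such an element `x ≠ 0` are linearly independent over `ℚ`, and the
centre is rigid. So `ControlledCentre` holds for all simple abelian fourfolds with `End(A) ⊗ ℚ` a quartic CM
field.

## Motives

As `h^1(A)` is dual to `h^1(A)(1)`, the motive `M` is a direct factor of a sum of motives
`h^1(A) ^ {⊗ r i} (w i)`. Its Betti realization is a space of families of multilinear forms with
rational values, in `r i` variables in `H_1(A, ℚ)`, with a basis `B`. It is the image of a motivated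
projector, and the realizations of motivated classes are Hodge classes and de Rham-Betti classes; so
it is stable under the Lie algebra `𝔤` and under the weights. The de Rham realization has a basis which
consists of combinations of products of elements of `H^1_dR(A / ℚ̄)` with algebraic coefficients. The
matrix `P` of the periods expresses it in terms of the basis `(2 π i) ^ (w i) B` of the Betti realization
(`IsMotive`). The image of `𝔤` in the endomorphisms of `M` is the Lie algebra of the Hodge group of `M`.

## Proof

Let `L` be the Lie algebra of `G`, and let `𝔮` be the set of the `X` in `𝔤` whose action on `M` is in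
`L` up to a multiple of the weight operator. By the theorem of Schneider and Lang `𝔮` acts semisimply on
`H_1(A, ℚ)`, with the same commutant as `𝔤` (`Pool.Agent.N208.AM.qM_full`).

1. `𝔮 ⊗ ℂ` is mapped onto all the factors `sl(2)`. If `[𝔤, 𝔤]` is not contained in `𝔮`, then by the lemmas of
   Goursat, Kolchin and Ribet two factors `i` and `k` are *linked*: the components of the elements of
   `𝔮 ⊗ ℂ` at `i` and `k` are conjugate by a fixed matrix. In separated position this gives an endomorphism of
   `H_1(A, ℂ)` which commutes with `𝔮` and not with `𝔤` (this part is due to helper21, `Y102/T4`).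
2. As `𝔮` and `𝔤` are defined over `ℚ`, the conjugates `σ(i)` and `σ(k)` of linked factors are linked
   (`A1.Link.conj`). So it is enough that a compact factor `i` is not linked to a noncompact factor `k`
   (`A1.no_link`). Let `X ↦ X†` be the adjoint for the hermitian form given by the polarization and by the
   complex structure `J`. For `X` in `𝔤 ⊗ ℝ` we have `X† = J X J`. The adjoint maps each factor to itself, since a
   nilpotent operator which commutes with its adjoint is zero (`A1.claimA`, `A1.claimC`). If the factor
   `i` is compact, then the components of `X` at `i` are skew-adjoint, so their squares are scalars `≤ 0`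
   (`A1.cpt_sq`). If `k` is not compact, and `j ≠ 0` is the component of `J` at `k`, then `j ^ 2 = - 1`, the
   components at `k` of the elements of `𝔮 ⊗ ℝ` are all real elements, and the elements `[j, x]` are
   self-adjoint, so some element of `𝔮 ⊗ ℝ` has a component at `k` with a positive square (`A1.ncpt`). But
   the squares of the components of linked factors are equal.
3. The centre, with `ControlledCentre`: `M` is also a motive in the tensor category generated by `h^1(C)`
   (`U2.pull_mot`), and the theorem on replicas shows that the action of the centre of the Lie algebra of `C`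
   on `M` is in `L` (`U2.cen_fac`). The weights are in `L` (transcendence of `π`). So the Deligne torus maps to
   `G` (`A1.DerFull.main`).
-/

open Module Matrix Pool.Agent.Y102 Pool.Agent.W516.DR Pool.Agent.H204R3.GP

noncomputable section

namespace Pool.Agent.Results.MP_f11a48_ag.TypeA1Motives

variable {g : ℕ} (A : AbVar g)

/-! ### The centre of the Lie algebra of the Hodge group -/

/-- The multilinear forms in `2m` variables in the rational homology. -/
abbrev Form (m : ℕ) : Type := MultilinearMap ℚ (fun _ : Fin m × Fin 2 => A.H1) ℚ

/-- `φ` is a de Rham-Betti class in `H^1(A) ^ {⊗ 2m} (m)`. -/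
def IsDRB {m : ℕ} (φ : Form A m) : Prop :=
  IsDeRhamBettiForm QBar A.dR (2 * Real.pi * Complex.I) m φ

/-- `φ` is a Hodge class in `H^1(A) ^ {⊗ 2m} (m)`. -/
def IsHodge {m : ℕ} (φ : Form A m) : Prop := IsHodgeTensor (A.per : A.H1 →+ (Fin g → ℂ)) φ

/-- The endomorphism `X` annihilates the form `φ` (as a derivation). -/
def Annihilates {m : ℕ} (X : Module.End ℚ A.H1) (φ : Form A m) : Prop :=
  ∀ v, ∑ k, φ (Function.update v k (X (v k))) = 0

/-- `X` is in the Lie algebra `𝔤`: it annihilates all classes that are Hodge classes and
de Rham-Betti classes. -/
def InLie (X : Module.End ℚ A.H1) : Prop :=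
  ∀ (m : ℕ) (φ : Form A m), IsHodge A φ → IsDRB A φ → Annihilates A X φ

/-- `X` is an element of the centre of `𝔤`. -/
def InCentre (X : Module.End ℚ A.H1) : Prop := InLie A X ∧ ∀ Y, InLie A Y → Y * X = X * Y

/-- The algebra of the endomorphisms of `H_1(A, ℂ)`, as matrices for the basis of the lattice. -/
def toC (X : Module.End ℚ A.H1) : Matrix (Fin (2 * g)) (Fin (2 * g)) ℂ :=
  Matrix.of fun i j => (X (Pi.single j 1) i : ℂ)

/-- The endomorphisms which commute with `X` and with the derived algebra of `𝔤` commute with the
centre of `𝔤`. -/
def Generates (X : Module.End ℚ A.H1) : Prop :=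
  ∀ T : Module.End ℚ A.H1,
    (∀ Y, InLie A Y → ∀ Z, InLie A Z → T * (Y * Z - Z * Y) = (Y * Z - Z * Y) * T) →
    T * X = X * T → ∀ Z, InCentre A Z → T * Z = Z * T

/-- All relations `∑ i, x i = 0` between eigenvalues of `X` imply the relation `∑ i, y i = 0` between
the eigenvalues of `Y` for the same eigenvectors. -/
def RelationsOf (X Y : Module.End ℚ A.H1) : Prop :=
  ∀ (r : ℕ) (v : Fin r → Fin (2 * g) → ℂ) (x y : Fin r → ℂ),
    (∀ i, v i ≠ 0 ∧ Matrix.mulVec (toC A X) (v i) = x i • v i ∧
      Matrix.mulVec (toC A Y) (v i) = y i • v i) → ∑ i, x i = 0 → ∑ i, y i = 0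

/-- The centre of `𝔤` is rigid: the relations between the eigenvalues of a generating element of the
centre hold for all elements of the centre. -/
def RigidCentre : Prop :=
  ∀ X, InCentre A X → Generates A X → ∀ Y, InCentre A Y → RelationsOf A X Y

/-! ### Type `A_1` -/

/-- The complex Lie algebra `𝔤 ⊗ ℂ`, acting on `H_1(A, ℂ)`. -/
def lieC : Submodule ℂ (Matrix (Fin (2 * g)) (Fin (2 * g)) ℂ) :=
  Submodule.span ℂ {Y | ∃ X, InLie A X ∧ Y = toC A X}

/-- `z` commutes with `𝔤 ⊗ ℂ`. -/
def CommutesWithLie (z : Matrix (Fin (2 * g)) (Fin (2 * g)) ℂ) : Prop := ∀ Y ∈ lieC A, z * Y = Y * z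

/-- The complex structure: the matrix of the multiplication by `i` on `H_1(A, ℝ) = ℂ ^ g`, in the basis
of the lattice. -/
def complexStructure : Matrix (Fin (2 * g)) (Fin (2 * g)) ℂ :=
  Matrix.of fun i j => ((A.lam.repr (Complex.I • A.lam j) i : ℝ) : ℂ)

/-- The conjugate by the automorphism `σ` of `ℂ` of the factor `ψ` is compact: it commutes with the
complex structure. -/
def CompactAt (σ : ℂ ≃+* ℂ)
    (ψ : Matrix (Fin 2) (Fin 2) ℂ →ₗ[ℂ] Matrix (Fin (2 * g)) (Fin (2 * g)) ℂ) : Prop :=
  ∀ a, complexStructure A * (ψ a).map σ = (ψ a).map σ * complexStructure A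

/-- The factors `i` and `k` act nontrivially on a common constituent of `H_1(A, ℂ)`, or there are
constituents `V ⊗ U` and `V' ⊗ U`, where `V` and `V'` are the standard representations of the factors `i`
and `k`, and `U` is a representation of the other factors and of the centre. -/
def InSeparatedPosition {n : ℕ}
    (φ : Fin n → Matrix (Fin 2) (Fin 2) ℂ →ₗ[ℂ] Matrix (Fin (2 * g)) (Fin (2 * g)) ℂ)
    (i k : Fin n) : Prop :=
  φ i 1 * φ k 1 ≠ 0 ∨ ∃ N : Matrix (Fin (2 * g)) (Fin (2 * g)) ℂ,
    N ≠ 0 ∧ φ i 1 * N = N ∧ N * φ k 1 = N ∧
      (∀ l, l ≠ i → l ≠ k → ∀ a, N * φ l a = φ l a * N) ∧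
      ∀ z ∈ lieC A, CommutesWithLie A z → N * z = z * N

/-- **Type `A_1`.** The Lie algebra `𝔤 ⊗ ℂ` is the sum of its centre and of `n` Lie algebras `sl(2)`,
which act by tensor products of standard representations. For two factors some automorphism of `ℂ` maps one
of them to a compact factor and the other one to a noncompact factor, or they are in separated
position. -/
def TypeA1 : Prop :=
  ∃ (n : ℕ) (φ : Fin n → Matrix (Fin 2) (Fin 2) ℂ →ₗ[ℂ] Matrix (Fin (2 * g)) (Fin (2 * g)) ℂ),
    (∀ i a b, φ i (a * b) = φ i a * φ i b) ∧
    (∀ i k, i ≠ k → ∀ a b, φ i a * φ k b = φ k b * φ i a) ∧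
    (∀ i, φ i 1 ≠ 0) ∧
    (∀ i x, x.trace = 0 → φ i x ∈ lieC A) ∧
    (∀ X ∈ lieC A, ∃ x : Fin n → Matrix (Fin 2) (Fin 2) ℂ, (∀ i, (x i).trace = 0) ∧
      CommutesWithLie A (X - ∑ i, φ i (x i))) ∧
    ∀ i k, i ≠ k → InSeparatedPosition A φ i k ∨
      ∃ σ : ℂ ≃+* ℂ, ¬ (CompactAt A σ (φ i) ↔ CompactAt A σ (φ k))

/-- `f` is a homomorphism (up to isogeny) from `A` to `C`: it is given by a linear map of the tangent
spaces, and the pull backs of the algebraic differential forms are algebraic. -/
def IsHomomorphism {g' : ℕ} (C : AbVar g') (f : A.H1 →ₗ[ℚ] C.H1) : Prop :=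
  (∃ F : (Fin g → ℂ) →ₗ[ℂ] (Fin g' → ℂ), ∀ w, F (A.per w) = C.per (f w)) ∧
    ∃ e : Fin g' ⊕ Fin g' → Fin g ⊕ Fin g → QBar,
      ∀ i w, C.dR i (f w) = ∑ j, algebraMap QBar ℂ (e i j) * A.dR j w

/-- `A` is a direct factor of `C`, up to isogeny, with the inclusion `f` and the projection `p`. -/
structure IsFactor {g' : ℕ} (C : AbVar g') (f : A.H1 →ₗ[ℚ] C.H1) (p : C.H1 →ₗ[ℚ] A.H1) :
    Prop where
  inclusion : IsHomomorphism A C f
  projection : IsHomomorphism C A p
  split : ∀ w, p (f w) = w

/-- `A` is a factor of an abelian variety `C` such that the centre of the Lie algebra of the Hodge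
group of `C` is rigid and acts on `A` through all elements of the centre of `𝔤`. -/
def ControlledCentre : Prop :=
  ∃ (g' : ℕ) (C : AbVar g') (f : A.H1 →ₗ[ℚ] C.H1) (p : C.H1 →ₗ[ℚ] A.H1),
    IsFactor A C f p ∧ RigidCentre C ∧
    ∀ Y, InCentre A Y → ∃ X, InCentre C X ∧ ∀ v, p (X (f v)) = Y v

/-! ### Motives -/

variable {s n : ℕ} (r : Fin s → ℕ) (w : Fin s → ℤ)

/-- The Betti realization of the sum of the motives `h^1(A) ^ {⊗ r i} (w i)`: families of multilinear
forms in `r i` variables in the rational homology. -/
abbrev Tensors : Type := ∀ i : Fin s, MultilinearMap ℚ (fun _ : Fin (r i) => A.H1) ℚ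

variable {A r}

/-- `M` is the matrix of the action of the endomorphism `X` of the rational homology of `A` (as a
derivation) on the space of tensors with the basis `B`. -/
def IsLieMatrix (B : Fin n → Tensors A r) (X : Module.End ℚ A.H1)
    (M : Matrix (Fin n) (Fin n) ℚ) : Prop :=
  ∀ a i v, ∑ k, B a i (Function.update v k (X (v k))) = ∑ b, M b a * B b i v

/-- The subspace with the basis `B` is the Betti realization of a direct factor `M` of the sum of the
motives `h^1(A) ^ {⊗ r i} (w i)`, and `P` is the matrix of the periods of `M` for the basis `B` and for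
some basis of the de Rham realization of `M` over `ℚ̄`. -/
structure IsMotive (B : Fin n → Tensors A r) (P : Matrix (Fin n) (Fin n) ℂ) : Prop where
  /-- `B` is a basis of a subspace -/
  basis : LinearIndependent ℚ B
  /-- the subspace is stable under `𝔤` -/
  lie : ∀ X, InLie A X → ∃ M : Matrix (Fin n) (Fin n) ℚ, IsLieMatrix B X M
  /-- the subspace is stable under the weights -/
  weight : ∃ M : Matrix (Fin n) (Fin n) ℚ, ∀ a i v,
    ((r i : ℚ) - 2 * w i) * B a i v = ∑ b, M b a * B b i v
  /-- the de Rham realization has a basis of elements with algebraic coefficients in terms of the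
  tensor products of the elements of the basis of `H^1_dR(A / ℚ̄)` -/
  deRham : ∃ c : Fin n → ∀ i : Fin s, (Fin (r i) → Fin g ⊕ Fin g) → ℂ,
    (∀ a i J, IsAlgebraic ℚ (c a i J)) ∧ ∀ a i (v : Fin (r i) → A.H1),
      ∑ J, c a i J * ∏ k, A.dR (J k) (v k) =
        (2 * Real.pi * Complex.I) ^ (w i) * ∑ b, P b a * (B b i v : ℂ)
  /-- the matrix of the periods is invertible -/
  det : P.det ≠ 0

variable (A) in
/-- The derived algebra `[𝔤, 𝔤]`. -/
def derivedLie : Submodule ℚ (Module.End ℚ A.H1) :=
  Submodule.span ℚ {Z | ∃ X, InLie A X ∧ ∃ Y, InLie A Y ∧ Z = X * Y - Y * X}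

/-! ### Algebraic groups, torsors and the Mumford-Tate group -/

/-- A subgroup of `GL_R(ℂ)` defined by polynomials with rational coefficients. -/
def IsAlgebraicSubgroup {R : Type} [Fintype R] [DecidableEq R] (G : Subgroup (GL R ℂ)) : Prop :=
  ∃ I : Set (MvPolynomial (R × R) ℚ), ∀ x : GL R ℂ, x ∈ G ↔
    ∀ p ∈ I, MvPolynomial.aeval (fun b : R × R => (x : Matrix R R ℂ) b.1 b.2) p = 0

/-- The torsor `G · T⁻¹` of `G`: the matrices `F` such that `F T` is an element of `G`. It is
defined over `ℚ̄` if `T` is a matrix with algebraic entries. -/
def torsor (G : Subgroup (GL (Fin n) ℂ)) (T : Matrix (Fin n) (Fin n) ℂ) :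
    Set (Matrix (Fin n) (Fin n) ℂ) :=
  {F | ∃ x ∈ G, (x : Matrix (Fin n) (Fin n) ℂ) = F * T}

variable (A) in
/-- The Hodge structure of `H^1(A)`: the complex number `z` acts on `H_1(A, ℝ) = ℂ ^ g` by
multiplication, and on `H^1(A, ℝ)` by the transposed map, here in the basis of `H^1(A, ℚ)` which is
dual to the basis of the lattice. -/
def hodge (z : ℂ) : Matrix (Fin (2 * g)) (Fin (2 * g)) ℂ :=
  Matrix.of fun i j => ((A.lam.repr (z • A.lam i) j : ℝ) : ℂ)

/-- `R` is the matrix of the action of the complex number `z` on `M`, in the Hodge structure given by
those of `H^1(A)` and of the Tate motives (`z` acts on `ℚ(1)` by `(z z̄)⁻¹`). -/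
def IsHodgeMatrix (B : Fin n → Tensors A r) (z : ℂ) (R : Matrix (Fin n) (Fin n) ℂ) : Prop :=
  ∀ a i (j : Fin (r i) → Fin (2 * g)),
    ∑ j' : Fin (r i) → Fin (2 * g), (∏ k, hodge A z (j k) (j' k)) *
        (B a i (fun k => Pi.single (j' k) 1) : ℂ) =
      (z * (starRingEnd ℂ) z) ^ (w i) * ∑ b, R b a * (B b i (fun k => Pi.single (j k) 1) : ℂ)

/-- The Mumford-Tate group of `M`: the smallest algebraic group over `ℚ` which contains the image of
the Deligne torus. -/
def mumfordTate (B : Fin n → Tensors A r) : Subgroup (GL (Fin n) ℂ) :=
  sInf {G | IsAlgebraicSubgroup G ∧ ∀ z : ℂ, z ≠ 0 → ∃ x ∈ G,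
    IsHodgeMatrix w B z (x : Matrix (Fin n) (Fin n) ℂ)}

/-! ### The proof -/

theorem RigidCentre.toRigid {g' : ℕ} {C : AbVar g'} (hz : RigidCentre C) : N208.CT.Rigid C := by
  intro X hX hg Y hY
  refine dom_of_matrix (hz X ⟨hX.1, hX.2⟩ (fun T hT hTX Z hZ => ?_) Y ⟨hY.1, hY.2⟩)
  exact hg T hT hTX Z ⟨hZ.1, hZ.2⟩

theorem complexStructure_eq (A : AbVar g) :
    complexStructure A = Run7.h358.A1.cR (Run7.h358.A1.JM A) := by
  ext i j
  change ((A.lam.repr (Complex.I • A.lam j) i : ℝ) : ℂ) =
    algebraMap ℝ ℂ (LinearMap.toMatrix A.lam A.lam AbVar.JJ i j)
  rw [LinearMap.toMatrix_apply]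
  rfl

theorem TypeA1.toWeak (h : TypeA1 A) : ∃ (n : ℕ)
    (φ : Fin n → Matrix (Fin 2) (Fin 2) ℂ →ₗ[ℂ] Matrix (Fin (2 * g)) (Fin (2 * g)) ℂ),
    Run7.h358.A1.WeakA1 A φ := by
  obtain ⟨n, φ, h1, h2, h3, h4, h5, h6⟩ := h
  refine ⟨n, φ, ⟨h1, h2, h3, h4, h5⟩, fun i k hik => ?_⟩
  rcases h6 i k hik with h7 | ⟨σ, h7⟩
  · exact Or.inl h7
  · right
    refine ⟨σ, ?_⟩
    unfold CompactAt at h7
    rw [complexStructure_eq] at h7
    exact h7

/-- **Theorem.** Let `A` be an abelian variety over `ℚ̄` whose Hodge group is of type `A_1`. Let `M` be a
motive in the tensor category generated by the motive `h^1(A)` and the Tate motives, with the matrix `P`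
of periods. Let `G` be an algebraic group over `ℚ` with a torsor over `ℚ̄` which contains `P`.

1. If `X` is an element of the derived algebra of the Lie algebra of the Hodge group of `A`, and `N` is the
   matrix of its action on `M`, then `exp (t N)` is in `G` for all complex numbers `t`.
2. If the condition `ControlledCentre` on the centre is satisfied, then the Mumford-Tate group of `M` is
   contained in `G`. -/
theorem result {g s n : ℕ} (A : AbVar g) (hA : TypeA1 A) (r : Fin s → ℕ) (w : Fin s → ℤ)
    (B : Fin n → Tensors A r) (P : Matrix (Fin n) (Fin n) ℂ) (hM : IsMotive w B P)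
    (G : Subgroup (GL (Fin n) ℂ)) (hG : IsAlgebraicSubgroup G) (T : Matrix (Fin n) (Fin n) ℂ)
    (hT : ∀ i j, IsAlgebraic ℚ (T i j)) (hP : P ∈ torsor G T) :
    (∀ X ∈ derivedLie A, ∀ N, IsLieMatrix B X N → ∀ t : ℂ, ∃ x ∈ G,
      (x : Matrix (Fin n) (Fin n) ℂ) = NormedSpace.exp (t • N.map fun q => (q : ℂ))) ∧
    (ControlledCentre A → mumfordTate w B ≤ G) := by
  have hwr : ∀ W : Matrix (Fin n) (Fin n) ℚ, (∀ a i v,
      ((r i : ℚ) - 2 * w i) * B a i v = ∑ b, W b a * B b i v) → N208.AM.WRel w B W := by
    intro W h a i
    refine MultilinearMap.ext fun v => ?_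
    rw [_root_.smul_apply, _root_.sum_apply, smul_eq_mul, h a i v]
    rfl
  obtain ⟨hM', Wt, hW⟩ : N208.AM.Mot w B P ∧ ∃ Wt, N208.AM.WRel w B Wt := by
    have hwt : ∃ M, N208.AM.WRel w B M := by
      obtain ⟨M, h⟩ := hM.weight
      exact ⟨M, hwr M h⟩
    refine ⟨⟨hM.basis, fun X hX => ?_, hwt, hM.det, hM.deRham⟩, hwt⟩
    obtain ⟨M, h⟩ := hM.lie X hX
    refine ⟨M, fun a i => MultilinearMap.ext fun v => ?_⟩
    rw [N208.AM.dact_apply, _root_.sum_apply, h a i v]
    rfl
  have hrelL : ∀ X M, IsLieMatrix B X M → N208.AM.Rel B X M := by
    intro X M h a i
    refine MultilinearMap.ext fun v => ?_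
    rw [N208.AM.dact_apply, _root_.sum_apply, h a i v]
    rfl
  have hb : ∀ j : Fin (2 * g), A.bas j = Pi.single j 1 := fun j => by
    unfold AbVar.bas
    rw [Pi.basisFun_apply]
  have hrel : ∀ z R, N208.AM.HRel w B z R → IsHodgeMatrix w B z R := by
    intro z R h a i j
    have h1 := h a i j
    simp only [hb] at h1
    exact h1
  -- the group
  have hdet : T.det ≠ 0 := by
    obtain ⟨x, -, hxT⟩ := hP
    intro h0
    have h1 : (x : Matrix (Fin n) (Fin n) ℂ).det = 0 := by
      rw [hxT, Matrix.det_mul, h0, mul_zero]
    exact (Matrix.GeneralLinearGroup.det x).ne_zero h1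
  obtain ⟨T', h1, h2⟩ := Pool.Agent.R917.alg_inv hT hdet
  obtain ⟨x, hx, hxT⟩ := hP
  have hH : N208.AM.PtM P _ := ⟨Pool.Agent.R917.algGrp_of hG, T, T', h1, h2, x, hx, hxT⟩
  obtain ⟨k, φ, hφ⟩ := hA.toWeak
  have hL := hφ.derFull
  refine ⟨fun X hX N hN t => ?_, fun hz => ?_⟩
  · have hX' : X ∈ der A.NA := by
      refine (Submodule.span_mono ?_) hX
      rintro _ ⟨X, hX, Y, hY, rfl⟩
      exact ⟨X, hX, Y, hY, rfl⟩
    exact Pool.Agent.R917.exp_mem hH.grp fun d =>
      (hL.der_LQ hM' hW hH hX' (hrelL X N hN) d).smul t
  · -- the centre
    have hcen : ∀ Y ∈ A.CN, ∀ M : Matrix (Fin n) (Fin n) ℚ, N208.AM.Rel B Y M →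
        M ∈ N208.AM.LQ {M : Matrix (Fin n) (Fin n) ℂ | ∃ x ∈ G,
          (x : Matrix (Fin n) (Fin n) ℂ) = M} := by
      intro Y hY M hM
      obtain ⟨g', C, f, p, hf, hr, hc⟩ := hz
      obtain ⟨X, hX, hXY⟩ := hc Y ⟨hY.1, hY.2⟩
      exact Run7.h358.U2.cen_fac (f := f) (p := p)
        ⟨hf.inclusion.2, hf.projection.2, hf.projection.1, hf.split⟩ hM' hW hH hr.toRigid
        ⟨X, ⟨hX.1, hX.2⟩, hXY⟩ hM
    -- the complex structure
    obtain ⟨N, hN, -⟩ := N208.AM.exists_J hM'
    refine sInf_le ⟨hG, fun u hu => ?_⟩
    obtain ⟨⟨y, hy, hy'⟩, h4⟩ := hL.main hM' hW hH hcen hN hu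
    refine ⟨y, hy, ?_⟩
    rw [hy']
    exact hrel _ _ h4

end Pool.Agent.Results.MP_f11a48_ag.TypeA1Motives
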