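import Pool.Agent.Run7.h2.UO.Main

set_option autoImplicit false

/-!
# Every torsor group contains the Mumford-Tate group: unitary and orthogonal domains together

Let `A` be an abelian variety over `ℚ̄` and let `M` be any André motive over `ℚ̄` in the tensor
category generated by `h^1(A)` and the Tate motives. Let `P` be the matrix of the periods
of `M`, and let `G ⊆ GL(H_B(M))` be *any* algebraic group over `ℚ` such that the comparison
isomorphism of `M` is a point of a torsor of `G` defined over `ℚ̄`: `P T ∈ G(ℂ)` for some matrix `T`
with algebraic entries. By theorems of Deligne and André the motivic Galois group of `M` is its
Mumford-Tate group `MT(M)`, and `P` is a point of a torsor of `MT(M)`. The conjecture of Grothendieck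
says that `P` is a generic point of this torsor; in particular it predicts that every such `G`
contains `MT(M)`. (For all motives in the tensor category of `M` together this prediction is equivalent
to `Ω_M^{dRB} = Ω_M^{And}`: all de Rham-Betti classes in the tensor constructions of `M` are Hodge
classes.)

Let `𝔤` be the Lie algebra of the endomorphisms of `H_1(A, ℚ)` which annihilate all classes that are
Hodge classes and de Rham-Betti classes; it is the Lie algebra of the Hodge group of `A`. We consider
two kinds of submodules of the `𝔤`-module `H_1(A, ℂ)`.

**(1) Unitary places** (`Places`). Let `z i`, `i < k`, be central endomorphisms of `A`, skew-symmetric for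
the polarization, such that all elements of the centre of `End(A) ⊗ ℚ` are polynomials in `z i` on the
image of `z i`. For example let `A` be isogenous to `∏ A_j ^ (m_j)`, with simple and pairwise not isogenous
`A_j`, and let `z i` be a generator, with `z̄ = - z`, of the CM field `F_j`, the centre of
`End(A_j) ⊗ ℚ`, for some `j`. Let `B_j` be the commutant of `End(A_j)`, and let `a i` be real numbers such
that both `i a` and `- i a` are eigenvalues of `z i` on the tangent space of `A`, `a = a i`: a place at
which the unitary group of `B_j` is not compact. Each place is of one of the following types:

* the signature is `(1, n)`, and `i a` and `- i a` are separated (this is satisfied if the order of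
  `B_j` in the Brauer group is larger than two);
* `ℚ[z]` is a field, and *some* place of `z` is of the first type; the signature at `a i` is arbitrary;
* `B_j` is a division algebra of a prime degree; the signature at the place `a i` is arbitrary.

Different places have different signatures (`r : s ≠ r' : s'` and `r : s ≠ s' : r'`), or they are
separated.

**(2) Spin parts** (`SpinParts`). Let `W = W_1 ⊕ ... ⊕ W_l` be a direct summand of the `𝔤`-module
`H_1(A, ℂ)`, with the inclusions `P σ` and the projections `Q σ` of the summands. We assume
that `𝔤` acts on `W_σ` through the orthogonal Lie algebra `so(r_σ)`, in a sum of spin representations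
(there are `r_σ` anticommuting endomorphisms `E σ i` of `W_σ` with square `1`; the products of two of them
span `so(r_σ)`), and scalars; that `r_σ = 3` or `r_σ ≥ 6`; that the scalars agree on
parts with the same `r_σ`; that `r_σ = 8` at most once; and that the representations are
*different* representations of `𝔤`: the associative algebra generated by `𝔤 ⊗ ℂ` contains elements
which act as the products `E σ i * E σ j` on `W_σ` and by zero on the other parts of the same rank. The
summand `W` need not be defined over `ℚ` or over the real numbers.

**(3) The dimensions.** The complex Lie algebra of a unitary place is `sl(N)`, `N = r + s`, and the Lie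
algebra of a spin part is `so(r_σ)`. We assume that their dimensions `N ² - 1` and `r_σ (r_σ - 1) / 2` are
different (`dimensionAt`). So `N = 2` and `r_σ = 3`, or `N = 4` and `r_σ = 6`, must not occur both. (A numerical
exception as `N = 11`, `r_σ = 16` is excluded only because we compare dimensions.)

**The domain of `M`** (`IsDomain`). We assume that the elements of `[𝔤, 𝔤] ⊗ ℂ` which act trivially on
`W` and on the eigenspaces of the `z i` for `± i a i` act on `M` by matrices which commute with the complex
structure `N` of `M`: the part of the Hodge group of `A` which acts trivially on these spaces acts
trivially on the Mumford-Tate domain of `M`. Nothing else is assumed about `M`.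

**Theorem.** 1. `G` contains the derived group of `MT(M)`. 2. If `A` has no factor of type IV, or if the
centre acts trivially on `M`, or if the centre is rigid, then `G` contains `MT(M)`.

## Which motives are these? (Explanations, not part of the statement)

*No unitary places* (`k = 0`). Let `M` be a motive of abelian type whose adjoint Mumford-Tate group is a
product of groups `Res_{F/ℚ} H` with `H` of type `A_1`, `B_n` (`n ≥ 3`) or `D_n^ℝ` (`n ≥ 3`, where `D_3` is
`SU(2, 2)`), with one real place of rank eight (type `D_4`) at most. The rank is the dimension of the
standard representation of the orthogonal group; the real groups which are not compact are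
`SO(2, r - 2)`. By the classification of the symplectic representations by Satake and Deligne there
is an abelian variety `A''` over `ℚ̄` such that `H_1(A'', ℂ)` contains the spin representations of the
factors which are not compact. So the theorem applies to `M` and `A = A' × A''`, where `M` is in the
category generated by `h^1(A')`, in the following cases: (a) the adjoint group has *no compact factors
over `ℝ`* (then the scalars are zero), so that the domain is an arbitrary product of upper half planes and
domains of type IV, for example for quadratic forms over a totally real field `F` of degree `d` with
signature `(2, r - 2)` at all `d` places, for the abelian varieties of Weil type of dimension `4 d` with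
multiplication by a CM field of degree `2 d`, signature `(2, 2)` at all places and Hodge group `SU`, and for
products of such motives, of motives of K3 type over `ℚ`, and of motives of type `A_1`; (b) there are
compact factors, and the ranks of the noncompact factors are pairwise different, for example products of
motives of K3 type with real multiplication by arbitrary totally real fields `F_j`, of different ranks
`r_j ≥ 6` over `F_j`.

*No spin parts* (`l = 0`): the motives of unitary type of the theorems `MixedSignatureTorsors` (which
was handed in here before and is a special case), `ProductsOfUnitaryTypes`, `DifferentSignatures`.

*In general* `M` is a motive whose domain is a product of complex balls, of other domains of unitary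
type, of domains of type IV and of upper half planes; `M` is in the category generated by the `h^1`
of a product of abelian varieties of unitary type and of motives as in (a), (b), with the condition (3). For
example let `X` be a K3 surface or a hyperkähler variety over `ℚ̄` with real multiplication by a field `F`,
whose transcendental lattice has rank `r ≥ 6` over `F`, and let `D` be an abelian variety such that the
commutant of `End(D)` is a division algebra of an odd prime degree `p` over an imaginary quadratic field,
`2 (p ² - 1) ≠ r (r - 1)`. Then all period groups of the motives in the category generated by `X` and `D`
contain the derived Mumford-Tate groups. These motives are neither of unitary nor of orthogonal type.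

**New here**: several spin parts, which may be permuted by the Galois group and need not be separated by
any arithmetic hypothesis, and unitary places and spin parts together, again without any
arithmetic hypothesis on a pair of a unitary place and a spin part. Known before: one domain of
type IV (`SpinDomainMotives`), Kuga-Satake varieties and products of K3 surfaces (`KugaSatake`,
`ProductsOfK3`), motives of type `A_1` (`TypeA1Motives`), the unitary types above.

**Not covered**: type `D_4` at several places (triality), `SO(2, 3)` (an irreducible subalgebra `sl(2)`),
several spin parts of the same rank with different scalars, the types `C_n` and `D_n^ℍ`.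

Nothing is assumed about periods: `AbVar` is the description of an abelian variety over `ℚ̄` by theta
functions (see `Pool/Agent/Y102/AVDefs.lean`, where it is explained why every abelian variety has it),
and the transcendence theorems which are used, the theorem of Schneider and Lang and the
transcendence of `π`, are proved in this repository. The group `G` is not assumed to be reductive. The
definitions are in `Pool/Agent/Run7/h2/OB/PUDefs.lean` and `Pool/Agent/Run7/h2/UO/Defs.lean`, the proof
is in `Pool/Agent/Run7/h2/UO/Main.lean`.

## Proof

Let `L` be the Lie algebra of `G`, and let `𝔮` be the set of the `X` in `𝔤` whose action on `M` is in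
`L` up to a multiple of the weight operator. By the theorem of Schneider and Lang `𝔮` acts semisimply on
`H_1(A, ℚ)`, with the same commutant as `𝔤` (`Pool.Agent.N208.AM.qM_full`).

1. At each unitary place `[𝔮, 𝔮]` contains `su(r, s)`, and different places are not linked
   (`Run7.h2.OB.PU.UnitaryPlaces.toHGI`).
2. *Rigidity of sums of spin representations* (`Run7/h2/OR/O1.lean` to `O7.lean`): a Lie subalgebra
   of `⊕ so(r_σ)` which generates the same associative algebra on `W` is the whole sum. For one part
   this is known (`Pool.Agent.Y102.SP`). By the lemma of Goursat the other possibility is that two parts
   are linked by an isomorphism `so(r) → so(r')`. It respects the Killing form (`O1.lean`), the ranks agree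
   by the dimensions, and for `r ≠ 8` the images of the elements `E_a E_b` have square `- 1` again
   (`O2.lean`, `O3.lean`), so that there is an intertwiner between the two spin representations. As
   the scalars agree this contradicts the assumption that the parts are different (`O5.lean`).
3. *A unitary place and a spin part* (`Run7/h2/UO/U3.lean`, `U4.lean`): an ideal of the
   complexification of `[𝔮, 𝔮]` is zero or everything at the unitary place, because `sl(N)` is simple
   (`U1.lean`), and zero or everything on the spin part. So `[𝔮, 𝔮]` maps onto the sum of the two algebras, or
   they have the same dimension. By commutators the same is true for all places and parts together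
   (`U5.lean`).
4. So `[𝔮, 𝔮] ⊗ ℂ` and `[𝔤, 𝔤] ⊗ ℂ` have the same image on all these spaces. By the lemma on real Lie
   algebras (`Pool.Agent.N113.BT.mem_of_sup`) this is enough for the derived Mumford-Tate group of `M`
   (`U6.lean`). The centre: `Pool.Agent.N208.CT`.
-/

namespace Pool.Agent.Results.MP_f11a48_ag.UnitaryAndSpinDomains

open Module Matrix Pool.Agent.Y102 Run7.h2.OB.PU Run7.h2.UOD

/-- **Theorem.** Let `z i`, `a i` be unitary places of the abelian variety `A`, such that different places
have different signatures or are separated. Let `W` be a sum of spin parts of `H_1(A, ℂ)`, such that
the dimensions of the Lie algebras of the places and of the spin parts are different. Let `M` be a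
motive in the tensor category generated by `h^1(A)` and the Tate motives, with the matrix `P` of
periods and the complex structure `N`, such that the part of the Hodge group of `A` which acts
trivially on `W` and on the eigenspaces for `± i a i` acts trivially on the Mumford-Tate domain of `M`.
Let `G` be an algebraic group over `ℚ` with a torsor over `ℚ̄` which contains `P`.

1. For all elements `Z` of the derived algebra of the Lie algebra of the Hodge group of `M` and all
   complex numbers `t` the matrix `exp (t Z)` is in `G`.
2. If `A` has no factor of type IV, or if the centre acts trivially on `M`, or if the centre is rigid,
   then the Mumford-Tate group of `M` is contained in `G`. -/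
theorem result {g s n k l : ℕ} (A : AbVar g) (z : Fin k → EndQ A) (a : Fin k → ℝ)
    (hA : Places A z a) {rk d : Fin l → ℕ}
    (E : ∀ σ, Fin (rk σ) → Matrix (Fin (d σ)) (Fin (d σ)) ℂ)
    (PW : ∀ σ, Matrix (Fin (2 * g)) (Fin (d σ)) ℂ) (QW : ∀ σ, Matrix (Fin (d σ)) (Fin (2 * g)) ℂ)
    (hS : SpinParts A E PW QW)
    (hdim : ∀ i σ, 2 * dimensionAt A (z i) (a i) ≠ rk σ * (rk σ - 1))
    (r : Fin s → ℕ) (w : Fin s → ℤ)
    (B : Fin n → Tensors A r) (P : Matrix (Fin n) (Fin n) ℂ) (hM : IsMotive w B P)
    (N : Matrix (Fin n) (Fin n) ℝ) (hN : IsComplexStructure B N)
    (hD : IsDomain z a (∑ σ, PW σ * QW σ) B N)
    (G : Subgroup (GL (Fin n) ℂ)) (hG : IsAlgebraicSubgroup G) (T : Matrix (Fin n) (Fin n) ℂ)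
    (hT : ∀ i j, IsAlgebraic ℚ (T i j)) (hP : P ∈ torsor G T) :
    (∀ Z ∈ derived (hodgeLie N), ∀ t : ℂ, ∃ x ∈ G,
      (x : Matrix (Fin n) (Fin n) ℂ) = NormedSpace.exp (t • Z.map fun q => (q : ℂ))) ∧
    (NoFactorOfTypeIV A ∨ CentreIsTrivialOn B ∨ HasRigidCentre A → mumfordTate w B ≤ G) :=
  main A z a hA E PW QW hS hdim r w B P hM N hN hD G hG T hT hP

end Pool.Agent.Results.MP_f11a48_ag.UnitaryAndSpinDomains
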